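import Pool.Agent.Run7.h878.AS.Hard

/-!
# Arc-disjoint antistrong and strong spanning subdigraphs

Given a digraph `D`, does `D` have two arc-disjoint spanning subdigraphs, one antistrong and one strongly connected?
The problem is NP-complete.

The reduction is from 3-SAT. Every variable is a cyclic sequence of vertices with arcs from `(1, x, i)` and
`(1, x, i + 1)` to `(2, x, i)`; each subdigraph needs exactly one of the two arcs into `(2, x, i)`, the antistrong one
needs all arcs from these vertices to a vertex `q`, and therefore the strong one contains either all arcs from
`(1, x, i)` to `(2, x, i)` or all arcs from `(1, x, i + 1)` to `(2, x, i)`. The three slots of a clause are linked so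
that the arcs of the strong subdigraph form a closed cycle with no entering arc if all three literals are false.
-/

namespace Pool.Agent.Results.MP_c99d13_lc.DecompositionNPComplete

open Pool.Agent.Lib.CX Pool.Agent.Run7.h878.AS

/-- **Deciding whether a digraph has arc-disjoint antistrong and strong spanning subdigraphs is NP-complete.** -/
theorem result : NPComplete HasDec := ⟨hasDec_inNP, hasDec_hard⟩

end Pool.Agent.Results.MP_c99d13_lc.DecompositionNPComplete
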